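import Pool.Agent.Helper74.UB.Goals3

/-!
Packet UB-STRIP: the strips of the darts of the host map, classification of its faces.
-/

set_option autoImplicit false

namespace Pool.Agent.Helper50.UB

open Pool.Agent.Helper74.UB Finset Equiv Helper28.VF
open scoped Classical

section general

variable {D V E F : Type} [Fintype D] [Fintype V] [Fintype E] [Fintype F] (M : PM D V E F)

lemma ph_inj {x y : D} (h : ph M x = ph M y) : x = y :=
  M.α.injective (M.σ.injective h)

lemma fc_ph (d : D) : M.fc (ph M d) = M.fc d := by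
  rw [M.fc_iff]
  exact Equiv.Perm.SameCycle.symm ⟨1, by simp [ph]⟩

/-- A property that is closed under `ph` is constant on faces. -/
lemma fc_closed {S : D → Prop} (hS : ∀ x, S x → S (ph M x)) {d e : D} (hd : S d)
    (h : M.fc e = M.fc d) : S e := by
  obtain ⟨n, hn⟩ := ((M.fc_iff d e).1 h.symm).exists_nat_pow_eq
  have key : ∀ m : ℕ, S (((M.σ * M.α) ^ m) d) := by
    intro m
    induction m with
    | zero => simpa using hd
    | succ m ih =>
      have := hS _ ih
      rw [pow_succ', Equiv.Perm.mul_apply]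
      exact this
  have := key n
  rwa [hn] at this

lemma T3_ph (d : D) (h : T3 M d) : T3 M (ph M d) := by
  unfold T3 at h ⊢
  rw [h]

lemma T3_of_fc {d e : D} (hd : T3 M d) (h : M.fc e = M.fc d) : T3 M e :=
  fc_closed M (S := T3 M) (T3_ph M) hd h

lemma T4_of_fc {d e : D} (hd : T4 M d) (h : M.fc e = M.fc d) : T4 M e := by
  refine ⟨?_, fun h3 => hd.2 (T3_of_fc M h3 h.symm)⟩
  refine fc_closed M (S := fun x => ph M (ph M (ph M (ph M x))) = x) ?_ hd.1 h
  intro x hx
  rw [hx]

lemma strip_congr {row : V → ℤ} {d e : D} (h : M.fc d = M.fc e) {y : ℤ}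
    (hs : InStrip M row e y) : InStrip M row d y := by
  unfold InStrip at hs ⊢
  rw [h]
  exact hs

end general

section host

variable {V D E F : Type} [Fintype V] [Fintype D] [Fintype E] [Fintype F] {L : Lay V}
  {M : PM D V E F} {dE dW : V → D} {dU dN : V → V → D}

/-- The face to the west of `dU v k`: rows and type. -/
lemma faceU (A : L.Ax) (H : LM L M dE dW dU dN) {v k : V} (hu : L.up v k) :
    InStrip M L.row (dU v k) (L.row v) ∧
    ((L.up (L.e.symm v) k ∨ L.up v (L.e.symm k)) → T3 M (dU v k)) ∧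
    (¬ L.up (L.e.symm v) k → ¬ L.up v (L.e.symm k) → T4 M (dU v k)) := by
  have rv : L.row (L.e.symm v) = L.row v := by
    have := A.row_e (L.e.symm v)
    rw [Equiv.apply_symm_apply] at this
    exact this.symm
  have rk : L.row k = L.row v + 1 := A.up_row v k hu
  have vU : L.row (M.vt (dU v k)) = L.row v := by rw [H.vU v k hu]
  by_cases h1 : L.up (L.e.symm v) k
  · -- triangle with base below
    have n1 : ¬ L.up (L.e.symm v) (L.e k) := by
      intro h
      apply A.cross (L.e.symm v) k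
      rw [Equiv.apply_symm_apply]
      exact ⟨h, hu⟩
    have n2 : ¬ L.up v (L.e.symm k) := by
      intro h
      apply A.cross (L.e.symm v) (L.e.symm k)
      rw [Equiv.apply_symm_apply, Equiv.apply_symm_apply]
      exact ⟨h1, h⟩
    have p1 : ph M (dU v k) = dN (L.e.symm v) k := H.U1 v k hu h1
    have p2 : ph M (dN (L.e.symm v) k) = dE (L.e.symm v) := H.N2 _ _ h1 n1
    have p3 : ph M (dE (L.e.symm v)) = dU v k := by
      have := H.E2 (L.e.symm v) k (by rw [Equiv.apply_symm_apply]; exact hu)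
        (by rw [Equiv.apply_symm_apply]; exact n2)
      rwa [Equiv.apply_symm_apply] at this
    have t3 : T3 M (dU v k) := by
      unfold T3
      rw [p1, p2, p3]
    have vN : L.row (M.vt (dN (L.e.symm v) k)) = L.row v + 1 := by rw [H.vN _ _ h1, rk]
    have vE : L.row (M.vt (dE (L.e.symm v))) = L.row v := by rw [H.vE, rv]
    refine ⟨⟨?_, ⟨dU v k, rfl, vU⟩, ⟨dN (L.e.symm v) k, ?_, vN⟩⟩, fun _ => t3,
      fun h => absurd h1 h⟩
    · intro e he
      have := fc_closed M (S := fun x => x = dU v k ∨ x = dN (L.e.symm v) k ∨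
        x = dE (L.e.symm v)) (by
          rintro x (rfl | rfl | rfl)
          · exact Or.inr (Or.inl p1)
          · exact Or.inr (Or.inr p2)
          · exact Or.inl p3) (Or.inl rfl) he
      rcases this with rfl | rfl | rfl
      · exact Or.inl vU
      · exact Or.inr vN
      · exact Or.inl vE
    · rw [← p1]
      exact fc_ph M _
  · have p1 : ph M (dU v k) = dW (L.e.symm k) := H.U2 v k hu h1
    have vW : L.row (M.vt (dW (L.e.symm k))) = L.row v + 1 := by
      rw [H.vW, Equiv.apply_symm_apply, rk]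
    by_cases h2 : L.up v (L.e.symm k)
    · -- triangle with base above
      have n1 : ¬ L.up (L.e v) (L.e.symm k) := by
        intro h
        apply A.cross v (L.e.symm k)
        rw [Equiv.apply_symm_apply]
        exact ⟨hu, h⟩
      have p2 : ph M (dW (L.e.symm k)) = dN v (L.e.symm k) := H.W2 _ _ h2 n1
      have p3 : ph M (dN v (L.e.symm k)) = dU v k := by
        have := H.N1 v (L.e.symm k) h2 (by rw [Equiv.apply_symm_apply]; exact hu)
        rwa [Equiv.apply_symm_apply] at this
      have t3 : T3 M (dU v k) := by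
        unfold T3
        rw [p1, p2, p3]
      have rk' : L.row (L.e.symm k) = L.row v + 1 := A.up_row _ _ h2
      have vN : L.row (M.vt (dN v (L.e.symm k))) = L.row v + 1 := by rw [H.vN _ _ h2, rk']
      refine ⟨⟨?_, ⟨dU v k, rfl, vU⟩, ⟨dW (L.e.symm k), ?_, vW⟩⟩, fun _ => t3,
        fun _ h => absurd h2 h⟩
      · intro e he
        have := fc_closed M (S := fun x => x = dU v k ∨ x = dW (L.e.symm k) ∨
          x = dN v (L.e.symm k)) (by
            rintro x (rfl | rfl | rfl)
            · exact Or.inr (Or.inl p1)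
            · exact Or.inr (Or.inr p2)
            · exact Or.inl p3) (Or.inl rfl) he
        rcases this with rfl | rfl | rfl
        · exact Or.inl vU
        · exact Or.inr vW
        · exact Or.inr vN
      · rw [← p1]
        exact fc_ph M _
    · -- square
      have h3 : L.up (L.e.symm v) (L.e.symm k) := by
        rcases A.west v k hu with h | h | h
        · exact absurd h h1
        · exact absurd h h2
        · exact h
      have p2 : ph M (dW (L.e.symm k)) = dN (L.e.symm v) (L.e.symm k) :=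
        H.W2 _ _ h3 (by rw [Equiv.apply_symm_apply]; exact h2)
      have p3 : ph M (dN (L.e.symm v) (L.e.symm k)) = dE (L.e.symm v) :=
        H.N2 _ _ h3 (by rw [Equiv.apply_symm_apply]; exact h1)
      have p4 : ph M (dE (L.e.symm v)) = dU v k := by
        have := H.E2 (L.e.symm v) k (by rw [Equiv.apply_symm_apply]; exact hu)
          (by rw [Equiv.apply_symm_apply]; exact h2)
        rwa [Equiv.apply_symm_apply] at this
      have ne : L.e.symm v ≠ v := by
        intro h
        apply A.e1 v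
        conv_lhs => rw [← h]
        rw [Equiv.apply_symm_apply]
      have t4 : T4 M (dU v k) := by
        refine ⟨by rw [p1, p2, p3, p4], ?_⟩
        unfold T3
        rw [p1, p2, p3]
        intro h
        apply ne
        have := congrArg M.vt h
        rwa [H.vE, H.vU v k hu] at this
      have vN : L.row (M.vt (dN (L.e.symm v) (L.e.symm k))) = L.row v + 1 := by
        rw [H.vN _ _ h3, A.up_row _ _ h3, rv]
      have vE : L.row (M.vt (dE (L.e.symm v))) = L.row v := by rw [H.vE, rv]
      refine ⟨⟨?_, ⟨dU v k, rfl, vU⟩, ⟨dW (L.e.symm k), ?_, vW⟩⟩, ?_, fun _ _ => t4⟩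
      · intro e he
        have := fc_closed M (S := fun x => x = dU v k ∨ x = dW (L.e.symm k) ∨
          x = dN (L.e.symm v) (L.e.symm k) ∨ x = dE (L.e.symm v)) (by
            rintro x (rfl | rfl | rfl | rfl)
            · exact Or.inr (Or.inl p1)
            · exact Or.inr (Or.inr (Or.inl p2))
            · exact Or.inr (Or.inr (Or.inr p3))
            · exact Or.inl p4) (Or.inl rfl) he
        rcases this with rfl | rfl | rfl | rfl
        · exact Or.inl vU
        · exact Or.inr vW
        · exact Or.inr vN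
        · exact Or.inl vE
      · rw [← p1]
        exact fc_ph M _
      · rintro (h | h)
        · exact absurd h h1
        · exact absurd h h2

/-- Below the top row the face of `dE v` is the face of some `dU (e v) k`. -/
lemma faceE (A : L.Ax) (H : LM L M dE dW dU dN) {v : V} (hv : L.row v < L.r1) :
    ∃ k, L.up (L.e v) k ∧ M.fc (dE v) = M.fc (dU (L.e v) k) := by
  obtain ⟨k, ⟨hk1, hk2⟩, -⟩ := A.ul (L.e v) (by rw [A.row_e]; exact hv)
  refine ⟨k, hk1, ?_⟩
  rw [← H.E2 v k hk1 hk2]
  exact (fc_ph M _).symm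

/-- The face of `dN v k` is the face of some `dU w k'` with `w` in the row of `v`. -/
lemma faceN (A : L.Ax) (H : LM L M dE dW dU dN) {v k : V} (hu : L.up v k) :
    ∃ w k', L.up w k' ∧ L.row w = L.row v ∧ M.fc (dN v k) = M.fc (dU w k') := by
  by_cases h : L.up v (L.e k)
  · refine ⟨v, L.e k, h, rfl, ?_⟩
    rw [← H.N1 v k hu h]
    exact (fc_ph M _).symm
  · have hv : L.row v < L.r1 := by
      have h1 := A.up_row v k hu
      have h2 := (A.bnd k).2
      omega
    obtain ⟨k', hk, hf⟩ := faceE A H hv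
    refine ⟨L.e v, k', hk, A.row_e v, ?_⟩
    rw [← hf, ← H.N2 v k hu h]
    exact (fc_ph M _).symm

/-- Above the bottom row the face of `dW v` is the face of some `dU w k'` with `w` in the row
below `v`. -/
lemma faceW (A : L.Ax) (H : LM L M dE dW dU dN) {v : V} (hv : L.r0 < L.row v) :
    ∃ w k', L.up w k' ∧ L.row w = L.row v - 1 ∧ M.fc (dW v) = M.fc (dU w k') := by
  obtain ⟨u, ⟨hu1, hu2⟩, -⟩ := A.dr v hv
  obtain ⟨w, k', hk, hr, hf⟩ := faceN A H hu1
  have := A.up_row u v hu1
  refine ⟨w, k', hk, by omega, ?_⟩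
  rw [← hf, ← H.W2 u v hu1 hu2]
  exact (fc_ph M _).symm

/-- Classification of the darts. -/
lemma classify (A : L.Ax) (H : LM L M dE dW dU dN) (d : D) :
    (∃ w k, L.up w k ∧ M.fc d = M.fc (dU w k)) ∨ (∃ v, L.row v = L.r1 ∧ d = dE v) ∨
      (∃ v, L.row v = L.r0 ∧ d = dW v) := by
  rcases H.cov d with ⟨v, rfl⟩ | ⟨v, rfl⟩ | ⟨v, k, hu, rfl⟩ | ⟨v, k, hu, rfl⟩
  · rcases eq_or_lt_of_le (A.bnd v).2 with h | h
    · exact Or.inr (Or.inl ⟨v, h, rfl⟩)
    · obtain ⟨k, hk, hf⟩ := faceE A H h
      exact Or.inl ⟨_, _, hk, hf⟩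
  · rcases eq_or_lt_of_le (A.bnd v).1 with h | h
    · exact Or.inr (Or.inr ⟨v, h.symm, rfl⟩)
    · obtain ⟨w, k', hk, -, hf⟩ := faceW A H h
      exact Or.inl ⟨_, _, hk, hf⟩
  · exact Or.inl ⟨v, k, hu, rfl⟩
  · obtain ⟨w, k', hk, -, hf⟩ := faceN A H hu
    exact Or.inl ⟨_, _, hk, hf⟩

lemma top_face (A : L.Ax) (H : LM L M dE dW dU dN) {v : V} (hv : L.row v = L.r1) {e : D}
    (he : M.fc e = M.fc (dE v)) : ∃ w, L.row w = L.r1 ∧ e = dE w := by
  refine fc_closed M (S := fun x => ∃ w, L.row w = L.r1 ∧ x = dE w) ?_ ⟨v, hv, rfl⟩ he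
  rintro x ⟨w, hw, rfl⟩
  exact ⟨L.e w, by rw [A.row_e, hw], H.E1 w hw⟩

omit [Fintype V] in
lemma row_symm (A : L.Ax) (v : V) : L.row (L.e.symm v) = L.row v := by
  have := A.row_e (L.e.symm v)
  rw [Equiv.apply_symm_apply] at this
  exact this.symm

lemma bot_face (A : L.Ax) (H : LM L M dE dW dU dN) {v : V} (hv : L.row v = L.r0) {e : D}
    (he : M.fc e = M.fc (dW v)) : ∃ w, L.row w = L.r0 ∧ e = dW w := by
  refine fc_closed M (S := fun x => ∃ w, L.row w = L.r0 ∧ x = dW w) ?_ ⟨v, hv, rfl⟩ he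
  rintro x ⟨w, hw, rfl⟩
  exact ⟨L.e.symm w, by rw [row_symm A, hw], H.W1 w hw⟩

end host

theorem strip : StmtStrip := by
  intro K h V D E F _ _ _ _ L f M dE dW dU dN Hh H
  have A := Hh.ax
  have hE : ∀ v, L.row v < L.r1 → InStrip M L.row (dE v) (L.row v) := by
    intro v hv
    obtain ⟨k, hk, hf⟩ := faceE A H hv
    have := (faceU A H hk).1
    rw [A.row_e] at this
    exact strip_congr M hf this
  have hW : ∀ v, L.r0 < L.row v → InStrip M L.row (dW v) (L.row v - 1) := by
    intro v hv
    obtain ⟨w, k, hk, hr, hf⟩ := faceW A H hv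
    have := (faceU A H hk).1
    rw [hr] at this
    exact strip_congr M hf this
  have hUN : ∀ v k, L.up v k →
      InStrip M L.row (dU v k) (L.row v) ∧ InStrip M L.row (dN v k) (L.row v) := by
    intro v k hu
    refine ⟨(faceU A H hu).1, ?_⟩
    obtain ⟨w, k', hk, hr, hf⟩ := faceN A H hu
    have := (faceU A H hk).1
    rw [hr] at this
    exact strip_congr M hf this
  have hFA : ∀ u v, FA M u v → L.row u ≤ L.row v + 1 ∧ L.row v ≤ L.row u + 1 := by
    rintro u v ⟨d, e, hde, rfl, rfl⟩
    rcases classify A H d with ⟨w, k, hu, hf⟩ | ⟨w, hw, rfl⟩ | ⟨w, hw, rfl⟩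
    · have hs := (faceU A H hu).1
      have h1 := hs.1 d hf
      have h2 := hs.1 e (hde.symm.trans hf)
      omega
    · obtain ⟨w', hw', rfl⟩ := top_face A H hw hde.symm
      rw [H.vE, H.vE, hw, hw']
      omega
    · obtain ⟨w', hw', rfl⟩ := bot_face A H hw hde.symm
      rw [H.vW, H.vW, A.row_e, A.row_e, hw, hw']
      omega
  have top3 : ∀ v, L.row v = L.r1 → T3 M (dE v) := by
    intro v hv
    unfold T3
    rw [H.E1 v hv, H.E1 (L.e v) (by rw [A.row_e, hv]),
      H.E1 (L.e (L.e v)) (by rw [A.row_e, A.row_e, hv]), Hh.top3 v hv]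
  have bot3 : ∀ v, L.row v = L.r0 → T3 M (dW v) := by
    intro v hv
    unfold T3
    have r1 : L.row (L.e.symm v) = L.r0 := by rw [row_symm A, hv]
    have r2 : L.row (L.e.symm (L.e.symm v)) = L.r0 := by rw [row_symm A, r1]
    rw [H.W1 v hv, H.W1 _ r1, H.W1 _ r2]
    congr 1
    have := Hh.bot3 (L.e.symm (L.e.symm (L.e.symm v))) (by rw [row_symm A, r2])
    rw [Equiv.apply_symm_apply, Equiv.apply_symm_apply, Equiv.apply_symm_apply] at this
    exact this.symm
  have hT : ∀ d, T3 M d ∨ T4 M d := by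
    intro d
    rcases classify A H d with ⟨w, k, hu, hf⟩ | ⟨w, hw, rfl⟩ | ⟨w, hw, rfl⟩
    · obtain ⟨-, h1, h2⟩ := faceU A H hu
      by_cases c1 : L.up (L.e.symm w) k
      · exact Or.inl (T3_of_fc M (h1 (Or.inl c1)) hf)
      · by_cases c2 : L.up w (L.e.symm k)
        · exact Or.inl (T3_of_fc M (h1 (Or.inr c2)) hf)
        · exact Or.inr (T4_of_fc M (h2 c1 c2) hf)
    · exact Or.inl (top3 w hw)
    · exact Or.inl (bot3 w hw)
  refine ⟨hE, hW, hUN, hFA, hT, ?_⟩
  have : Fact (1 < 3 * 2 ^ K) := ⟨by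
    have := Nat.one_le_two_pow (n := K)
    omega⟩
  have hsymm : ∀ (r : ℕ) (i : ZMod (3 * 2 ^ K)), r ≤ h →
      L.e.symm (f r i) = f r (i - 1) := by
    intro r i h1
    rw [Equiv.symm_apply_eq, Hh.flat.e r (i - 1) (Nat.zero_le _) h1, sub_add_cancel]
  have hsymm1 : ∀ (r : ℕ) (i : ZMod (3 * 2 ^ K)), r < h →
      L.e.symm (f (r + 1) i) = f (r + 1) (i - 1) := by
    intro r i h1
    have := hsymm (r + 1) i h1
    push_cast at this
    exact this
  intro d
  constructor
  · intro h4
    rcases classify A H d with ⟨w, k, hu, hf⟩ | ⟨w, hw, rfl⟩ | ⟨w, hw, rfl⟩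
    · obtain ⟨hs, h1, -⟩ := faceU A H hu
      have n3 : ¬ T3 M (dU w k) := (T4_of_fc M h4 hf.symm).2
      have hnot : ¬ (L.up (L.e.symm w) k ∨ L.up w (L.e.symm k)) := fun h => n3 (h1 h)
      have hrow : 0 ≤ L.row w ∧ L.row w < h := by
        by_contra hc
        have : L.row w < 0 ∨ (h : ℤ) ≤ L.row w := by
          by_contra hc'
          push Not at hc'
          exact hc hc'
        exact hnot (Hh.tri w k hu this)
      refine ⟨L.row w, hrow.1, hrow.2, ?_, strip_congr M hf hs⟩
      by_contra hev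
      obtain ⟨i, hi⟩ := Hh.flat.surj w hrow.1 hrow.2.le
      obtain ⟨r, hr⟩ := Int.eq_ofNat_of_zero_le hrow.1
      rw [hr] at hi hev hrow
      rw [Int.even_coe_nat] at hev
      have hrh : r < h := by exact_mod_cast hrow.2
      rw [← hi] at hu hnot
      have hup := (Hh.flat.upT r i k (Nat.zero_le _) hrh hev).1 hu
      apply hnot
      rcases hup with rfl | rfl
      · left
        rw [hsymm r i hrh.le, Hh.flat.upT r (i - 1) _ (Nat.zero_le _) hrh hev]
        right
        rw [sub_add_cancel]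
      · right
        rw [hsymm1 r (i + 1) hrh, Hh.flat.upT r i _ (Nat.zero_le _) hrh hev]
        left
        rw [add_sub_cancel_right]
    · exact absurd (top3 w hw) h4.2
    · exact absurd (bot3 w hw) h4.2
  · rintro ⟨y, hy0, hyh, hev, hs⟩
    rcases classify A H d with ⟨w, k, hu, hf⟩ | ⟨w, hw, rfl⟩ | ⟨w, hw, rfl⟩
    · obtain ⟨hs', -, h2⟩ := faceU A H hu
      have hwy : L.row w = y := by
        obtain ⟨-, ⟨e1, he1, hr1⟩, ⟨e2, he2, hr2⟩⟩ := hs'
        have a1 := hs.1 e1 (he1.trans hf.symm)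
        have a2 := hs.1 e2 (he2.trans hf.symm)
        omega
      obtain ⟨i, hi⟩ := Hh.flat.surj w (by omega) (by omega)
      rw [hwy] at hi
      obtain ⟨r, rfl⟩ := Int.eq_ofNat_of_zero_le hy0
      rw [Int.even_coe_nat] at hev
      have hrh : r < h := by exact_mod_cast hyh
      have hc1 : ((r + 1 : ℕ) : ℤ) = (r : ℤ) + 1 := by push_cast; ring
      refine T4_of_fc M (h2 ?_ ?_) hf
      · intro hc
        rw [← hi] at hu hc
        rw [Hh.flat.upS r i k (Nat.zero_le _) hrh hev] at hu
        rw [hsymm r i hrh.le, Hh.flat.upS r (i - 1) k (Nat.zero_le _) hrh hev, hu,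
          ← hc1] at hc
        have := Hh.flat.inj (r + 1) i (i - 1) (Nat.zero_le _) hrh hc
        have h1 : (1 : ZMod (3 * 2 ^ K)) = 0 := by linear_combination this
        exact one_ne_zero h1
      · intro hc
        rw [← hi] at hu hc
        rw [Hh.flat.upS r i k (Nat.zero_le _) hrh hev] at hu
        rw [hu, hsymm1 r i hrh, Hh.flat.upS r i _ (Nat.zero_le _) hrh hev, ← hc1] at hc
        have := Hh.flat.inj (r + 1) (i - 1) i (Nat.zero_le _) hrh hc
        have h1 : (1 : ZMod (3 * 2 ^ K)) = 0 := by linear_combination -this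
        exact one_ne_zero h1
    · exfalso
      obtain ⟨-, ⟨e1, he1, hr1⟩, -⟩ := hs
      obtain ⟨w', hw', rfl⟩ := top_face A H hw he1
      rw [H.vE, hw', Hh.r1] at hr1
      omega
    · exfalso
      obtain ⟨-, ⟨e1, he1, hr1⟩, -⟩ := hs
      obtain ⟨w', hw', rfl⟩ := bot_face A H hw he1
      rw [H.vW, A.row_e, hw', Hh.r0] at hr1
      have := Hh.K1
      omega

end Pool.Agent.Helper50.UB
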